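import Mathlib

/-!
# Hooks of length two in `t`-regular partitions: definitions and the hooks of one partition
-/

set_option autoImplicit false

open Finset

namespace Pool.Agent.U295.HK

/-- The `t`-regular partitions of `n`: no part is divisible by `t`. -/
def regular (t n : ℕ) : Finset (Nat.Partition n) :=
  univ.filter (fun p => ∀ a ∈ p.parts, ¬ t ∣ a)

/-- The length of the row `i` (rows are numbered from `0`, in non-increasing order). -/
def row {n : ℕ} (p : Nat.Partition n) (i : ℕ) : ℕ :=
  (p.parts.sort (fun a b => b ≤ a)).getD i 0

/-- The length of the column `j` (columns are numbered from `0`): the number of rows longer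
than `j`. -/
def col {n : ℕ} (p : Nat.Partition n) (j : ℕ) : ℕ :=
  (p.parts.filter (fun a => j < a)).card

/-- The cells `(i, j)` of the Young diagram. -/
def cells {n : ℕ} (p : Nat.Partition n) : Finset (ℕ × ℕ) :=
  (range n ×ˢ range n).filter (fun c => c.2 < row p c.1)

/-- The hook length of a cell: arm plus leg plus one. -/
def hookLength {n : ℕ} (p : Nat.Partition n) (c : ℕ × ℕ) : ℕ :=
  (row p c.1 - c.2 - 1) + (col p c.2 - c.1 - 1) + 1

/-- The number of cells of hook length `k`. -/
def hooks (k : ℕ) {n : ℕ} (p : Nat.Partition n) : ℕ :=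
  ((cells p).filter (fun c => hookLength p c = k)).card

/-- The number of hooks of length `k` in all `t`-regular partitions of `n`. -/
def b (t k n : ℕ) : ℕ := ∑ p ∈ regular t n, hooks k p

lemma list_aux (l : List ℕ) (hl : l.Pairwise (fun a b => b ≤ a)) (i j : ℕ) :
    j < l.getD i 0 ↔ i < (l.filter (fun a => decide (j < a))).length := by
  induction l generalizing i with
  | nil => simp
  | cons a l ih =>
    rw [List.pairwise_cons] at hl
    by_cases h : j < a
    · rw [List.filter_cons_of_pos (by simpa using h)]
      cases i with
      | zero => simp [h]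
      | succ i =>
        rw [List.getD_cons_succ, List.length_cons, ih hl.2 i]
        omega
    · have h0 : List.filter (fun a => decide (j < a)) l = [] := by
        rw [List.filter_eq_nil_iff]
        intro x hx
        have := hl.1 x hx
        simp only [decide_eq_true_eq]
        omega
      rw [List.filter_cons_of_neg (by simpa using h), h0]
      cases i with
      | zero => simpa using h
      | succ i =>
        rw [List.getD_cons_succ, ih hl.2 i, h0]
        simp

lemma lt_row_iff {n : ℕ} (p : Nat.Partition n) (i j : ℕ) : j < row p i ↔ i < col p j := by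
  unfold row col
  rw [list_aux _ (Multiset.pairwise_sort p.parts (fun a b => b ≤ a)) i j]
  have h1 : (Multiset.filter (fun a => j < a) p.parts).card =
      (List.filter (fun a => decide (j < a)) (p.parts.sort (fun a b => b ≤ a))).length := by
    conv_lhs => rw [← Multiset.sort_eq p.parts (fun a b => b ≤ a)]
    rw [Multiset.filter_coe, Multiset.coe_card]
  rw [h1]

lemma col_succ {n : ℕ} (p : Nat.Partition n) (j : ℕ) :
    col p j = p.parts.count (j + 1) + col p (j + 1) := by
  unfold col
  rw [Multiset.count_eq_card_filter_eq, ← Multiset.card_add]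
  congr 1
  rw [Multiset.filter_add_filter]
  have h1 : Multiset.filter (fun a => j < a) p.parts =
      Multiset.filter (fun a => (j + 1 = a) ∨ (j + 1 < a)) p.parts := by
    apply Multiset.filter_congr
    intro a _
    omega
  have h2 : Multiset.filter (fun a => (j + 1 = a) ∧ (j + 1 < a)) p.parts = 0 := by
    rw [Multiset.filter_eq_nil]
    intro a _ h
    omega
  rw [h1, h2, add_zero]

lemma col_le {n : ℕ} (p : Nat.Partition n) (j : ℕ) : col p j ≤ n := by
  unfold col
  calc (p.parts.filter (fun a => j < a)).card ≤ p.parts.card := Multiset.card_le_card (Multiset.filter_le _ _)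
    _ ≤ p.parts.sum := by
        have := Multiset.card_nsmul_le_sum (s := p.parts) (a := 1) (fun a ha => p.parts_pos ha)
        simpa using this
    _ = n := p.parts_sum

lemma col_eq_zero {n : ℕ} (p : Nat.Partition n) (j : ℕ) (hj : n ≤ j) : col p j = 0 := by
  unfold col
  rw [Multiset.card_eq_zero, Multiset.filter_eq_nil]
  intro a ha h
  have := Multiset.le_sum_of_mem ha
  rw [p.parts_sum] at this
  omega

/-- The cells of hook length two: the last cell but one of the last row of length `a` if there is
no row of length `a - 1`, and the last cell of the last row but one of length `a`. -/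
lemma hooks_two {n : ℕ} (p : Nat.Partition n) :
    hooks 2 p = ((range (n + 1)).filter (fun a => 2 ≤ a ∧ a ∈ p.parts ∧ a - 1 ∉ p.parts)).card +
      ((range (n + 1)).filter (fun a => 1 ≤ a ∧ 2 ≤ p.parts.count a)).card := by
  classical
  set S1 := ((range (n + 1)).filter (fun a => 2 ≤ a ∧ a ∈ p.parts ∧ a - 1 ∉ p.parts)).image
    (fun a => (col p (a - 1) - 1, a - 2)) with hS1
  set S2 := ((range (n + 1)).filter (fun a => 1 ≤ a ∧ 2 ≤ p.parts.count a)).image
    (fun a => (col p (a - 1) - 2, a - 1)) with hS2
  have hc1 : S1.card =
      ((range (n + 1)).filter (fun a => 2 ≤ a ∧ a ∈ p.parts ∧ a - 1 ∉ p.parts)).card := by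
    apply card_image_of_injOn
    intro x hx y hy hxy
    simp only [coe_filter, mem_range, Set.mem_ofPred_eq] at hx hy
    simp only [Prod.mk.injEq] at hxy
    omega
  have hc2 : S2.card = ((range (n + 1)).filter (fun a => 1 ≤ a ∧ 2 ≤ p.parts.count a)).card := by
    apply card_image_of_injOn
    intro x hx y hy hxy
    simp only [coe_filter, mem_range, Set.mem_ofPred_eq] at hx hy
    simp only [Prod.mk.injEq] at hxy
    omega
  have hcol : ∀ j, col p j ≤ n := col_le p
  have hz : ∀ j, n ≤ j → col p j = 0 := col_eq_zero p
  have hmem : ∀ a, a ∈ p.parts ↔ 0 < p.parts.count a := fun a => Multiset.count_pos.symm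
  have hun : (cells p).filter (fun c => hookLength p c = 2) = S1 ∪ S2 := by
    ext ⟨i, j⟩
    rw [mem_filter, mem_union, hS1, hS2, mem_image, mem_image]
    unfold cells
    rw [mem_filter, mem_product, mem_range, mem_range]
    simp only [mem_filter, mem_range, Prod.mk.injEq, hookLength]
    have e0 := lt_row_iff p i j
    have e1 := lt_row_iff p i (j + 1)
    have e2 := lt_row_iff p i (j + 2)
    have c0 := col_succ p j
    have c1 : col p (j + 1) = p.parts.count (j + 2) + col p (j + 2) := col_succ p (j + 1)
    have hj := hcol j
    have zj := hz j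
    have zj1 := hz (j + 1)
    constructor
    · rintro ⟨⟨⟨hi, hjn⟩, hr⟩, hh⟩
      have hj1 : col p (j + 1) ≤ col p j := by omega
      by_cases hcase : j + 1 < row p i
      · left
        have h3 : ¬ (j + 2 < row p i) := by omega
        refine ⟨j + 2, ⟨?_, by omega, ?_, ?_⟩, ?_, by omega⟩
        · by_contra hcon
          have := zj1 (by omega)
          omega
        · rw [hmem]
          omega
        · rw [hmem]
          have : j + 2 - 1 = j + 1 := by omega
          rw [this]
          omega
        · have : j + 2 - 1 = j + 1 := by omega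
          rw [this]
          omega
      · right
        refine ⟨j + 1, ⟨by omega, by omega, by omega⟩, ?_, by omega⟩
        have : j + 1 - 1 = j := by omega
        rw [this]
        omega
    · rintro (⟨a, ⟨ha1, ha2, ha3, ha4⟩, ha5, ha6⟩ | ⟨a, ⟨ha1, ha2, ha3⟩, ha4, ha5⟩)
      · have ha : a = j + 2 := by omega
        subst ha
        have e3 : j + 2 - 1 = j + 1 := by omega
        rw [e3] at ha4 ha5
        rw [hmem] at ha3 ha4
        have hi : i < col p (j + 1) := by omega
        have hr1 : j < row p i := e0.2 (by omega)
        refine ⟨⟨⟨by omega, by omega⟩, hr1⟩, by omega⟩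
      · have ha : a = j + 1 := by omega
        subst ha
        have e3 : j + 1 - 1 = j := by omega
        rw [e3] at ha4
        have hi : i < col p j := by omega
        have hr1 : j < row p i := e0.2 (by omega)
        refine ⟨⟨⟨by omega, by omega⟩, hr1⟩, by omega⟩
  have hdis : Disjoint S1 S2 := by
    rw [disjoint_left]
    rintro ⟨i, j⟩ h1 h2
    rw [hS1, mem_image] at h1
    rw [hS2, mem_image] at h2
    simp only [mem_filter, mem_range, Prod.mk.injEq] at h1 h2
    obtain ⟨a, ⟨ha1, ha2, ha3, ha4⟩, ha5, ha6⟩ := h1
    obtain ⟨a', ⟨hb1, hb2, hb3⟩, hb4, hb5⟩ := h2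
    have ha : a = j + 2 := by omega
    have hb : a' = j + 1 := by omega
    subst ha
    subst hb
    rw [hmem] at ha4
    have e3 : j + 2 - 1 = j + 1 := by omega
    rw [e3] at ha4
    omega
  unfold hooks
  rw [hun, card_union_of_disjoint hdis, hc1, hc2]

end Pool.Agent.U295.HK
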