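import Pool.Agent.U295.HK.A

/-!
# Numbers of `t`-regular partitions, and the total number of hooks of length two
-/

set_option autoImplicit false

open Finset

namespace Pool.Agent.U295.HK

/-- The number of `t`-regular partitions of `x`, zero for negative `x`. -/
def beta (t : ℕ) (x : ℤ) : ℤ := if 0 ≤ x then ((regular t x.toNat).card : ℤ) else 0

lemma beta_neg (t : ℕ) (x : ℤ) (hx : x < 0) : beta t x = 0 := by
  unfold beta
  rw [if_neg (by omega)]

lemma beta_nat (t m : ℕ) : beta t (m : ℤ) = ((regular t m).card : ℤ) := by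
  unfold beta
  rw [if_pos (by omega), Int.toNat_natCast]

lemma card_ge (t m : ℕ) (M : Multiset ℕ) (hM : ∀ a ∈ M, 0 < a ∧ ¬ t ∣ a) :
    ((regular t (m + M.sum)).filter (fun p => M ≤ p.parts)).card = (regular t m).card := by
  symm
  refine card_bij (fun (q : Nat.Partition m) _ =>
    (⟨q.parts + M, ?_, ?_⟩ : Nat.Partition (m + M.sum))) ?_ ?_ ?_
  · intro i hi
    rw [Multiset.mem_add] at hi
    rcases hi with hi | hi
    · exact q.parts_pos hi
    · exact (hM i hi).1
  · rw [Multiset.sum_add, q.parts_sum]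
  · intro q hq
    unfold regular at hq ⊢
    rw [mem_filter] at hq
    rw [mem_filter, mem_filter]
    refine ⟨⟨mem_univ _, ?_⟩, Multiset.le_add_left _ _⟩
    intro a ha
    simp only [Multiset.mem_add] at ha
    rcases ha with ha | ha
    · exact hq.2 a ha
    · exact (hM a ha).2
  · intro q hq q' hq' h
    rw [Nat.Partition.ext_iff] at h ⊢
    simpa using h
  · intro p hp
    rw [mem_filter] at hp
    obtain ⟨hp1, hp2⟩ := hp
    unfold regular at hp1
    rw [mem_filter] at hp1
    obtain ⟨R, hR⟩ := Multiset.le_iff_exists_add.1 hp2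
    have hsum := p.parts_sum
    rw [hR, Multiset.sum_add] at hsum
    refine ⟨⟨R, ?_, by omega⟩, ?_, ?_⟩
    · intro i hi
      apply p.parts_pos
      rw [hR, Multiset.mem_add]
      exact Or.inr hi
    · unfold regular
      rw [mem_filter]
      refine ⟨mem_univ _, fun a ha => hp1.2 a ?_⟩
      rw [hR, Multiset.mem_add]
      exact Or.inr ha
    · rw [Nat.Partition.ext_iff]
      simp only
      rw [hR, add_comm]

/-- The number of `t`-regular partitions of `n` that contain the multiset `M` of parts. -/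
lemma card_ge' (t n : ℕ) (M : Multiset ℕ) (hM : ∀ a ∈ M, 0 < a ∧ ¬ t ∣ a) :
    (((regular t n).filter (fun p => M ≤ p.parts)).card : ℤ) = beta t (n - (M.sum : ℕ)) := by
  by_cases h : M.sum ≤ n
  · obtain ⟨m, rfl⟩ := Nat.exists_eq_add_of_le' h
    rw [card_ge t m M hM]
    have : ((m + M.sum : ℕ) : ℤ) - (M.sum : ℕ) = (m : ℤ) := by push_cast; ring
    rw [this, beta_nat]
  · rw [beta_neg _ _ (by omega)]
    have : (regular t n).filter (fun p => M ≤ p.parts) = ∅ := by
      rw [filter_eq_empty_iff]
      intro p _ hp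
      obtain ⟨R, hR⟩ := Multiset.le_iff_exists_add.1 hp
      have hsum := p.parts_sum
      rw [hR, Multiset.sum_add] at hsum
      omega
    rw [this]
    simp

lemma card_mem (t n a : ℕ) (ha : 0 < a) :
    (((regular t n).filter (fun p => a ∈ p.parts)).card : ℤ) =
      if t ∣ a then 0 else beta t (n - a) := by
  split_ifs with h
  · have : (regular t n).filter (fun p => a ∈ p.parts) = ∅ := by
      rw [filter_eq_empty_iff]
      intro p hp hp'
      unfold regular at hp
      rw [mem_filter] at hp
      exact hp.2 a hp' h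
    rw [this]
    simp
  · have := card_ge' t n {a} (by
      intro x hx
      rw [Multiset.mem_singleton] at hx
      subst hx
      exact ⟨ha, h⟩)
    simpa using this

lemma card_mem_mem (t n a c : ℕ) (ha : 0 < a) (hc : 0 < c) (hac : a ≠ c) :
    (((regular t n).filter (fun p => a ∈ p.parts ∧ c ∈ p.parts)).card : ℤ) =
      if t ∣ a ∨ t ∣ c then 0 else beta t (n - (a + c : ℕ)) := by
  split_ifs with h
  · have : (regular t n).filter (fun p => a ∈ p.parts ∧ c ∈ p.parts) = ∅ := by
      rw [filter_eq_empty_iff]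
      intro p hp hp'
      unfold regular at hp
      rw [mem_filter] at hp
      rcases h with h | h
      · exact hp.2 a hp'.1 h
      · exact hp.2 c hp'.2 h
    rw [this]
    simp
  · push Not at h
    have := card_ge' t n {a, c} (by
      intro x hx
      simp only [Multiset.insert_eq_cons, Multiset.mem_cons, Multiset.mem_singleton] at hx
      rcases hx with rfl | rfl
      · exact ⟨ha, h.1⟩
      · exact ⟨hc, h.2⟩)
    rw [show ((a + c : ℕ) : ℤ) = (({a, c} : Multiset ℕ).sum : ℕ) by simp]
    rw [← this]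
    congr 2
    apply filter_congr
    intro p _
    have hnd : ({a, c} : Multiset ℕ).Nodup := by
      simp [hac]
    rw [Multiset.le_iff_subset hnd]
    simp [Multiset.subset_iff]

lemma card_two (t n a : ℕ) (ha : 0 < a) :
    (((regular t n).filter (fun p => 2 ≤ p.parts.count a)).card : ℤ) =
      if t ∣ a then 0 else beta t (n - (2 * a : ℕ)) := by
  split_ifs with h
  · have : (regular t n).filter (fun p => 2 ≤ p.parts.count a) = ∅ := by
      rw [filter_eq_empty_iff]
      intro p hp hp'
      unfold regular at hp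
      rw [mem_filter] at hp
      have hm : a ∈ p.parts := by
        rw [← Multiset.count_pos]
        omega
      exact hp.2 a hm h
    rw [this]
    simp
  · have := card_ge' t n (Multiset.replicate 2 a) (by
      intro x hx
      rw [Multiset.mem_replicate] at hx
      rw [hx.2]
      exact ⟨ha, h⟩)
    rw [show ((2 * a : ℕ) : ℤ) = ((Multiset.replicate 2 a).sum : ℕ) by simp; ring]
    rw [← this]
    congr 2
    apply filter_congr
    intro p _
    exact Multiset.le_count_iff_replicate_le

/-- The coefficients of the auxiliary series. -/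
def h1 (t m : ℕ) : Prop := 2 ≤ m ∧ ¬ t ∣ m
def h2 (t m : ℕ) : Prop := 1 ≤ m ∧ m % 2 = 0 ∧ ¬ t ∣ m / 2
def h3 (t m : ℕ) : Prop := 3 ≤ m ∧ m % 2 = 1 ∧ ¬ t ∣ (m + 1) / 2 ∧ ¬ t ∣ (m - 1) / 2

instance (t m : ℕ) : Decidable (h1 t m) := by unfold h1; infer_instance
instance (t m : ℕ) : Decidable (h2 t m) := by unfold h2; infer_instance
instance (t m : ℕ) : Decidable (h3 t m) := by unfold h3; infer_instance

def h (t m : ℕ) : ℤ :=
  (if h1 t m then 1 else 0) + (if h2 t m then 1 else 0) - (if h3 t m then 1 else 0)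

lemma reindex (n : ℕ) (f : ℤ → ℤ) (hf : ∀ x < 0, f x = 0) (φ : ℕ → ℕ) (S : ℕ → Prop)
    [DecidablePred S] (T : ℕ → Prop) [DecidablePred T] (N : ℕ)
    (e1 : ∀ a, S a → φ a ≤ n → a < N) (e2 : ∀ a, S a → T (φ a))
    (e3 : ∀ a c, S a → S c → φ a = φ c → a = c) (e4 : ∀ m, T m → ∃ a, S a ∧ φ a = m) :
    ∑ a ∈ range N, (if S a then f (n - φ a) else 0) =
      ∑ m ∈ range (n + 1), (if T m then f (n - m) else 0) := by
  have l1 : ∑ a ∈ range N, (if S a then f (n - φ a) else 0) =
      ∑ a ∈ (range N).filter (fun a => S a ∧ φ a ≤ n), f (n - φ a) := by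
    rw [sum_filter]
    apply sum_congr rfl
    intro a _
    by_cases hS : S a
    · by_cases hle : φ a ≤ n
      · simp [hS, hle]
      · rw [if_pos hS, if_neg (by simp [hle]), hf _ (by omega)]
    · simp [hS]
  rw [l1, ← sum_filter]
  refine sum_bij (fun a _ => φ a) ?_ ?_ ?_ ?_
  · intro a ha
    rw [mem_filter] at ha ⊢
    exact ⟨mem_range.2 (by omega), e2 a ha.2.1⟩
  · intro a ha c hc hac
    rw [mem_filter] at ha hc
    exact e3 a c ha.2.1 hc.2.1 hac
  · intro m hm
    rw [mem_filter, mem_range] at hm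
    obtain ⟨a, ha1, ha2⟩ := e4 m hm.2
    refine ⟨a, ?_, ha2⟩
    rw [mem_filter, mem_range]
    exact ⟨e1 a ha1 (by omega), ha1, by omega⟩
  · intro a _
    rfl

/-- The total number of hooks of length two. -/
lemma b_two (t n : ℕ) : (b t 2 n : ℤ) = ∑ m ∈ range (n + 1), h t m * beta t (n - m) := by
  have l0 : (b t 2 n : ℤ) = ∑ a ∈ range (n + 1),
      (((regular t n).filter (fun p => 2 ≤ a ∧ a ∈ p.parts ∧ a - 1 ∉ p.parts)).card : ℤ) +
      ∑ a ∈ range (n + 1),
      (((regular t n).filter (fun p => 1 ≤ a ∧ 2 ≤ p.parts.count a)).card : ℤ) := by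
    unfold b
    simp only [hooks_two, card_filter]
    push_cast
    rw [sum_add_distrib]
    congr 1 <;> exact sum_comm
  have l1 : ∀ a, (((regular t n).filter
      (fun p => 2 ≤ a ∧ a ∈ p.parts ∧ a - 1 ∉ p.parts)).card : ℤ) =
      (if h1 t a then beta t (n - (a : ℕ)) else 0) -
      (if (2 ≤ a ∧ ¬ t ∣ a ∧ ¬ t ∣ a - 1) then beta t (n - (2 * a - 1 : ℕ)) else 0) := by
    intro a
    by_cases ha : 2 ≤ a
    · have s1 := card_mem t n a (by omega)
      have s2 := card_mem_mem t n a (a - 1) (by omega) (by omega) (by omega)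
      have s3 : ((regular t n).filter (fun p => a ∈ p.parts)).card =
          ((regular t n).filter (fun p => 2 ≤ a ∧ a ∈ p.parts ∧ a - 1 ∉ p.parts)).card +
          ((regular t n).filter (fun p => a ∈ p.parts ∧ a - 1 ∈ p.parts)).card := by
        rw [← card_union_of_disjoint]
        · congr 1
          ext p
          simp only [mem_filter, mem_union]
          by_cases hp : a - 1 ∈ p.parts <;> simp [hp, ha]
        · rw [disjoint_filter]
          intro p _ h1 h2
          exact h1.2.2 h2.2
      have s4 : (((regular t n).filter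
          (fun p => 2 ≤ a ∧ a ∈ p.parts ∧ a - 1 ∉ p.parts)).card : ℤ) =
          (((regular t n).filter (fun p => a ∈ p.parts)).card : ℤ) -
          (((regular t n).filter (fun p => a ∈ p.parts ∧ a - 1 ∈ p.parts)).card : ℤ) := by
        rw [s3]
        push_cast
        ring
      rw [s4, s1, s2]
      have e : a + (a - 1) = 2 * a - 1 := by omega
      rw [e]
      unfold h1
      by_cases c1 : t ∣ a
      · simp [c1]
      · by_cases c2 : t ∣ a - 1
        · simp [c1, c2, ha]
        · simp [c1, c2, ha]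
    · have e : (regular t n).filter (fun p => 2 ≤ a ∧ a ∈ p.parts ∧ a - 1 ∉ p.parts) = ∅ := by
        rw [filter_eq_empty_iff]
        intro p _ hp
        exact ha hp.1
      rw [e]
      unfold h1
      simp [ha]
  have l2 : ∀ a, (((regular t n).filter (fun p => 1 ≤ a ∧ 2 ≤ p.parts.count a)).card : ℤ) =
      (if (1 ≤ a ∧ ¬ t ∣ a) then beta t (n - (2 * a : ℕ)) else 0) := by
    intro a
    by_cases ha : 1 ≤ a
    · have s1 := card_two t n a ha
      simp only [ha, true_and]
      rw [s1]
      by_cases c1 : t ∣ a <;> simp [c1]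
    · simp [ha]
  rw [l0]
  simp only [l1, l2]
  rw [sum_sub_distrib]
  have r1 := reindex n (beta t) (beta_neg t) (fun a => a) (h1 t) (h1 t) (n + 1)
    (fun a _ ha => by omega) (fun a ha => ha) (fun a c _ _ hac => hac) (fun m hm => ⟨m, hm, rfl⟩)
  have r2 := reindex n (beta t) (beta_neg t) (fun a => 2 * a) (fun a => 1 ≤ a ∧ ¬ t ∣ a) (h2 t)
    (n + 1) (fun a _ ha => by omega)
    (fun a ha => by
      refine ⟨by omega, by omega, ?_⟩
      rw [show 2 * a / 2 = a by omega]
      exact ha.2) (fun a c _ _ hac => by omega)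
    (fun m hm => ⟨m / 2, ⟨by have := hm.1; have := hm.2.1; omega, hm.2.2⟩,
      by have := hm.1; have := hm.2.1; omega⟩)
  have r3 := reindex n (beta t) (beta_neg t) (fun a => 2 * a - 1)
    (fun a => 2 ≤ a ∧ ¬ t ∣ a ∧ ¬ t ∣ a - 1) (h3 t)
    (n + 1) (fun a ha ha' => by have := ha.1; omega)
    (fun a ha => by
      have := ha.1
      refine ⟨by omega, by omega, ?_, ?_⟩
      · rw [show (2 * a - 1 + 1) / 2 = a by omega]
        exact ha.2.1
      · rw [show (2 * a - 1 - 1) / 2 = a - 1 by omega]
        exact ha.2.2) (fun a c ha hc hac => by have := ha.1; have := hc.1; omega)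
    (fun m hm => by
      obtain ⟨q1, q2, q3, q4⟩ := hm
      refine ⟨(m + 1) / 2, ⟨by omega, q3, ?_⟩, by omega⟩
      rw [show (m + 1) / 2 - 1 = (m - 1) / 2 by omega]
      exact q4)
  rw [r1, r2, r3, ← sum_sub_distrib, ← sum_add_distrib]
  apply sum_congr rfl
  intro m _
  unfold h
  split_ifs <;> ring

end Pool.Agent.U295.HK
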