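import Pool.Agent.U295.HK.B

/-!
# Comparison of numbers of regular partitions
-/

set_option autoImplicit false

open Finset

namespace Pool.Agent.U295.HK

lemma card_not_mem (t n a : ℕ) (ha : 0 < a) (hta : ¬ t ∣ a) :
    (((regular t n).filter (fun p => a ∉ p.parts)).card : ℤ) =
      beta t n - beta t (n - a) := by
  have s1 := card_mem t n a ha
  rw [if_neg hta] at s1
  have s2 := card_filter_add_card_filter_not (s := regular t n) (fun p => a ∈ p.parts)
  rw [beta_nat]
  rw [← s1]
  push_cast [← s2]
  ring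

lemma card_not_mem_mem (t n a c : ℕ) (ha : 0 < a) (hc : 0 < c) (hac : a ≠ c)
    (hta : ¬ t ∣ a) (htc : ¬ t ∣ c) :
    (((regular t n).filter (fun p => a ∉ p.parts ∧ c ∉ p.parts)).card : ℤ) =
      beta t n - beta t (n - a) - beta t (n - c) + beta t (n - a - c) := by
  have s1 := card_mem t n a ha
  rw [if_neg hta] at s1
  have s2 := card_not_mem t n c hc htc
  have s3 := card_mem_mem t n a c ha hc hac
  rw [if_neg (by simp [hta, htc])] at s3
  have s4 := card_filter_add_card_filter_not
    (s := (regular t n).filter (fun p => c ∉ p.parts)) (fun p => a ∈ p.parts)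
  have s5 := card_filter_add_card_filter_not
    (s := (regular t n).filter (fun p => a ∈ p.parts)) (fun p => c ∈ p.parts)
  rw [filter_filter, filter_filter] at s4 s5
  have e1 : (regular t n).filter (fun p => c ∉ p.parts ∧ a ∈ p.parts) =
      (regular t n).filter (fun p => a ∈ p.parts ∧ c ∉ p.parts) := by
    apply filter_congr; intro p _; tauto
  have e2 : (regular t n).filter (fun p => c ∉ p.parts ∧ a ∉ p.parts) =
      (regular t n).filter (fun p => a ∉ p.parts ∧ c ∉ p.parts) := by
    apply filter_congr; intro p _; tauto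
  rw [e1, e2] at s4
  have e3 : (n : ℤ) - (a + c : ℕ) = n - a - c := by push_cast; ring
  rw [e3] at s3
  have s4' : (((regular t n).filter (fun p => a ∈ p.parts ∧ c ∉ p.parts)).card : ℤ) +
      (((regular t n).filter (fun p => a ∉ p.parts ∧ c ∉ p.parts)).card : ℤ) =
      (((regular t n).filter (fun p => c ∉ p.parts)).card : ℤ) := by exact_mod_cast s4
  have s5' : (((regular t n).filter (fun p => a ∈ p.parts ∧ c ∈ p.parts)).card : ℤ) +
      (((regular t n).filter (fun p => a ∈ p.parts ∧ c ∉ p.parts)).card : ℤ) =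
      (((regular t n).filter (fun p => a ∈ p.parts)).card : ℤ) := by exact_mod_cast s5
  linarith

/-- The first difference. -/
def cc (t : ℕ) (x : ℤ) : ℤ := beta t x - beta t (x - 1)

lemma cc_neg (t : ℕ) (x : ℤ) (hx : x < 0) : cc t x = 0 := by
  unfold cc
  rw [beta_neg t x hx, beta_neg t (x - 1) (by omega)]
  ring

lemma cc_nonneg (t : ℕ) (ht : 2 ≤ t) (x : ℤ) : 0 ≤ cc t x := by
  by_cases hx : x < 0
  · rw [cc_neg t x hx]
  · obtain ⟨n, rfl⟩ := Int.eq_ofNat_of_zero_le (not_lt.1 hx)
    have := card_not_mem t n 1 (by omega) (by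
      intro h
      have := Nat.le_of_dvd (by omega) h
      omega)
    unfold cc
    have h2 : (0 : ℤ) ≤ (((regular t n).filter (fun p => 1 ∉ p.parts)).card : ℤ) := by positivity
    rw [this] at h2
    simpa using h2

lemma cc_mono (t : ℕ) (ht : 2 ≤ t) (k : ℕ) (hk : 2 ≤ k) (hkt : ¬ t ∣ k) (x : ℤ) :
    cc t (x - k) ≤ cc t x := by
  by_cases hx : x < 0
  · rw [cc_neg t x hx, cc_neg t (x - k) (by omega)]
  · obtain ⟨n, rfl⟩ := Int.eq_ofNat_of_zero_le (not_lt.1 hx)
    have h1 : ¬ t ∣ 1 := by
      intro h
      have := Nat.le_of_dvd (by omega) h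
      omega
    have := card_not_mem_mem t n 1 k (by omega) (by omega) (by omega) h1 hkt
    have h2 : (0 : ℤ) ≤ (((regular t n).filter (fun p => 1 ∉ p.parts ∧ k ∉ p.parts)).card : ℤ) := by
      positivity
    rw [this] at h2
    unfold cc
    have e : (n : ℤ) - (1 : ℕ) - k = n - k - 1 := by push_cast; ring
    rw [e] at h2
    push_cast at h2
    linarith

lemma cc_even (t : ℕ) (ht : 3 ≤ t) (i : ℕ) (x : ℤ) : cc t (x - 2 * i) ≤ cc t x := by
  induction i with
  | zero => simp
  | succ i ih =>
    have := cc_mono t (by omega) 2 le_rfl (by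
      intro h
      have := Nat.le_of_dvd (by omega) h
      omega) (x - 2 * i)
    push_cast at this ⊢
    have e : x - 2 * ((i : ℤ) + 1) = x - 2 * i - 2 := by ring
    rw [e]
    linarith

lemma beta_mono (t : ℕ) (ht : 2 ≤ t) (x : ℤ) (k : ℕ) : beta t (x - k) ≤ beta t x := by
  induction k with
  | zero => simp
  | succ k ih =>
    have := cc_nonneg t ht (x - k)
    unfold cc at this
    have e : x - ((k + 1 : ℕ) : ℤ) = x - k - 1 := by push_cast; ring
    rw [e]
    linarith

/-- The function `t^e k ↤ (t+1)^e k` on parts. -/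
def g (t : ℕ) (a : ℕ) : ℕ :=
  if _h : (t + 1) ∣ a ∧ 0 < a ∧ 0 < t then t * g t (a / (t + 1)) else a
termination_by a
decreasing_by
  exact Nat.div_lt_self _h.2.1 (by omega)

lemma g_pos_of (t a : ℕ) (ht : 0 < t) (h : (t + 1) ∣ a) (ha : 0 < a) :
    g t a = t * g t (a / (t + 1)) := by
  conv_lhs => rw [g]
  rw [dif_pos ⟨h, ha, ht⟩]

lemma g_of_not (t a : ℕ) (h : ¬ (t + 1) ∣ a) : g t a = a := by
  rw [g, dif_neg (by tauto)]

lemma g_le (t : ℕ) (ht : 0 < t) (a : ℕ) : g t a ≤ a := by
  induction a using Nat.strong_induction_on with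
  | _ a ih =>
    by_cases h : (t + 1) ∣ a
    · rcases Nat.eq_zero_or_pos a with rfl | ha
      · rw [g, dif_neg (by simp)]
      · rw [g_pos_of t a ht h ha]
        have h1 := ih (a / (t + 1)) (Nat.div_lt_self ha (by omega))
        obtain ⟨c, rfl⟩ := h
        rw [Nat.mul_div_cancel_left _ (by omega)] at h1 ⊢
        nlinarith
    · rw [g_of_not t a h]

lemma g_pos (t : ℕ) (ht : 0 < t) (a : ℕ) (ha : 0 < a) : 0 < g t a := by
  induction a using Nat.strong_induction_on with
  | _ a ih =>
    by_cases h : (t + 1) ∣ a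
    · rw [g_pos_of t a ht h ha]
      have h1 := ih (a / (t + 1)) (Nat.div_lt_self ha (by omega))
        (Nat.div_pos (Nat.le_of_dvd ha h) (by omega))
      positivity
    · rw [g_of_not t a h]
      exact ha

lemma g_not_dvd (t : ℕ) (ht : 0 < t) (a : ℕ) (ha : 0 < a) : ¬ (t + 1) ∣ g t a := by
  induction a using Nat.strong_induction_on with
  | _ a ih =>
    by_cases h : (t + 1) ∣ a
    · rw [g_pos_of t a ht h ha]
      have h1 := ih (a / (t + 1)) (Nat.div_lt_self ha (by omega))
        (Nat.div_pos (Nat.le_of_dvd ha h) (by omega))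
      intro h2
      apply h1
      have hco : Nat.Coprime (t + 1) t := by simp
      exact hco.dvd_of_dvd_mul_left h2
    · rw [g_of_not t a h]
      exact h

lemma g_inj (t : ℕ) (ht : 0 < t) (a : ℕ) : ∀ c : ℕ, 0 < a → 0 < c → ¬ t ∣ a → ¬ t ∣ c →
    g t a = g t c → a = c := by
  induction a using Nat.strong_induction_on with
  | _ a ih =>
    intro c ha hc hta htc hg
    by_cases h : (t + 1) ∣ a
    · have hga := g_pos_of t a ht h ha
      by_cases h' : (t + 1) ∣ c
      · have hgc := g_pos_of t c ht h' hc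
        rw [hga, hgc] at hg
        have h1 := Nat.eq_of_mul_eq_mul_left ht hg
        have d1 : a = (t + 1) * (a / (t + 1)) := (Nat.mul_div_cancel' h).symm
        have d2 : c = (t + 1) * (c / (t + 1)) := (Nat.mul_div_cancel' h').symm
        have h2 := ih (a / (t + 1)) (Nat.div_lt_self ha (by omega)) (c / (t + 1))
          (Nat.div_pos (Nat.le_of_dvd ha h) (by omega))
          (Nat.div_pos (Nat.le_of_dvd hc h') (by omega))
          (fun hh => hta (by rw [d1]; exact Dvd.dvd.mul_left hh _))
          (fun hh => htc (by rw [d2]; exact Dvd.dvd.mul_left hh _)) h1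
        rw [d1, d2, h2]
      · rw [hga, g_of_not t c h'] at hg
        exact absurd ⟨_, hg.symm⟩ htc
    · by_cases h' : (t + 1) ∣ c
      · rw [g_of_not t a h, g_pos_of t c ht h' hc] at hg
        exact absurd ⟨_, hg⟩ hta
      · rwa [g_of_not t a h, g_of_not t c h'] at hg

lemma g_ne (t : ℕ) (a v : ℕ) (ht : 0 < t) (ha : 0 < a) (hv : ¬ t ∣ v) (hav : a ≠ v) :
    g t a ≠ v := by
  by_cases h : (t + 1) ∣ a
  · rw [g_pos_of t a ht h ha]
    intro hh
    exact hv ⟨_, hh.symm⟩
  · rw [g_of_not t a h]
    exact hav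

/-- Partitions with parts in `P` are at most as many as partitions with parts in `Q`, if there is
an injection of `P ∖ {1}` into `Q ∖ {1}` that does not increase. -/
lemma card_le_of_inj (n : ℕ) (P Q : ℕ → Prop) [DecidablePred P] [DecidablePred Q] (f : ℕ → ℕ)
    (hQ1 : Q 1) (hf1 : ∀ a, 0 < a → P a → a ≠ 1 → Q (f a) ∧ 0 < f a ∧ f a ≠ 1 ∧ f a ≤ a)
    (hf2 : ∀ a c, 0 < a → 0 < c → P a → P c → f a = f c → a = c) :
    ((univ : Finset (Nat.Partition n)).filter (fun p => ∀ a ∈ p.parts, P a)).card ≤
      ((univ : Finset (Nat.Partition n)).filter (fun p => ∀ a ∈ p.parts, Q a)).card := by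
  classical
  -- the image of a partition
  have hsum : ∀ p : Nat.Partition n, (∀ a ∈ p.parts, P a) →
      ((p.parts.filter (fun a => a ≠ 1)).map f).sum ≤ n := by
    intro p hp
    calc ((p.parts.filter (fun a => a ≠ 1)).map f).sum
        ≤ ((p.parts.filter (fun a => a ≠ 1)).map id).sum := by
          apply Multiset.sum_map_le_sum_map
          intro a ha
          rw [Multiset.mem_filter] at ha
          exact (hf1 a (p.parts_pos ha.1) (hp a ha.1) ha.2).2.2.2
      _ = (p.parts.filter (fun a => a ≠ 1)).sum := by rw [Multiset.map_id]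
      _ ≤ p.parts.sum := by
          obtain ⟨R, hR⟩ := Multiset.le_iff_exists_add.1
            (Multiset.filter_le (fun a => a ≠ 1) p.parts)
          conv_rhs => rw [hR]
          rw [Multiset.sum_add]
          omega
      _ = n := p.parts_sum
  refine card_le_card_of_injOn (fun p => if hp : (∀ a ∈ p.parts, P a) then
    (⟨(p.parts.filter (fun a => a ≠ 1)).map f +
      Multiset.replicate (n - ((p.parts.filter (fun a => a ≠ 1)).map f).sum) 1, ?_, ?_⟩ :
      Nat.Partition n) else p) ?_ ?_
  · intro i hi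
    rw [Multiset.mem_add] at hi
    rcases hi with hi | hi
    · rw [Multiset.mem_map] at hi
      obtain ⟨a, ha, rfl⟩ := hi
      rw [Multiset.mem_filter] at ha
      exact (hf1 a (p.parts_pos ha.1) (hp a ha.1) ha.2).2.1
    · rw [Multiset.mem_replicate] at hi
      omega
  · rw [Multiset.sum_add, Multiset.sum_replicate]
    have := hsum p hp
    simp only [smul_eq_mul, mul_one]
    omega
  · intro p hp
    simp only [coe_filter, mem_univ, true_and, Set.mem_ofPred_eq] at hp ⊢
    rw [dif_pos hp]
    intro a ha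
    rw [Multiset.mem_add] at ha
    rcases ha with ha | ha
    · rw [Multiset.mem_map] at ha
      obtain ⟨x, hx, rfl⟩ := ha
      rw [Multiset.mem_filter] at hx
      exact (hf1 x (p.parts_pos hx.1) (hp x hx.1) hx.2).1
    · rw [Multiset.mem_replicate] at ha
      rw [ha.2]
      exact hQ1
  · intro p hp q hq hpq
    simp only [coe_filter, mem_univ, true_and, Set.mem_ofPred_eq] at hp hq
    simp only [dif_pos hp, dif_pos hq] at hpq
    rw [Nat.Partition.ext_iff] at hpq
    simp only at hpq
    -- compare the parts different from one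
    have key : ∀ r : Nat.Partition n, (∀ a ∈ r.parts, P a) →
        ((r.parts.filter (fun a => a ≠ 1)).map f +
        Multiset.replicate (n - ((r.parts.filter (fun a => a ≠ 1)).map f).sum) 1).filter
          (fun a => a ≠ 1) = (r.parts.filter (fun a => a ≠ 1)).map f := by
      intro r hr
      rw [Multiset.filter_add]
      have h1 : Multiset.filter (fun a => a ≠ 1)
          (Multiset.replicate (n - ((r.parts.filter (fun a => a ≠ 1)).map f).sum) 1) = 0 := by
        rw [Multiset.filter_eq_nil]
        intro a ha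
        rw [Multiset.mem_replicate] at ha
        simp [ha.2]
      rw [h1, add_zero, Multiset.filter_eq_self]
      intro a ha
      rw [Multiset.mem_map] at ha
      obtain ⟨x, hx, rfl⟩ := ha
      rw [Multiset.mem_filter] at hx
      exact (hf1 x (r.parts_pos hx.1) (hr x hx.1) hx.2).2.2.1
    have h2 := congrArg (Multiset.filter (fun a => a ≠ 1)) hpq
    rw [key p hp, key q hq] at h2
    have h3 : p.parts.filter (fun a => a ≠ 1) = q.parts.filter (fun a => a ≠ 1) := by
      have hinj : Set.InjOn f {a | 0 < a ∧ P a} := by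
        intro a ha c hc hac
        exact hf2 a c ha.1 hc.1 ha.2 hc.2 hac
      have hback : ∀ r : Nat.Partition n, (∀ a ∈ r.parts, P a) →
          ((r.parts.filter (fun a => a ≠ 1)).map f).map
            (Function.invFunOn f {a | 0 < a ∧ P a}) = r.parts.filter (fun a => a ≠ 1) := by
        intro r hr
        rw [Multiset.map_map]
        conv_rhs => rw [← Multiset.map_id (r.parts.filter (fun a => a ≠ 1))]
        apply Multiset.map_congr rfl
        intro x hx
        rw [Multiset.mem_filter] at hx
        exact hinj.leftInvOn_invFunOn ⟨r.parts_pos hx.1, hr x hx.1⟩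
      rw [← hback p hp, h2, hback q hq]
    have h4 : ∀ r : Nat.Partition n, r.parts = r.parts.filter (fun a => a ≠ 1) +
        Multiset.replicate (n - (r.parts.filter (fun a => a ≠ 1)).sum) 1 := by
      intro r
      have e1 := Multiset.filter_add_not (fun a => a ≠ 1) r.parts
      have e2 : Multiset.filter (fun a => ¬ (a ≠ 1)) r.parts =
          Multiset.replicate (r.parts.count 1) 1 := by
        have : Multiset.filter (fun a => ¬ (a ≠ 1)) r.parts =
            Multiset.filter (fun a => a = 1) r.parts := by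
          apply Multiset.filter_congr
          intro a _
          simp
        rw [this, Multiset.filter_eq']
      have e3 := congrArg Multiset.sum e1
      rw [e2, Multiset.sum_add, Multiset.sum_replicate, r.parts_sum] at e3
      simp only [smul_eq_mul, mul_one] at e3
      conv_lhs => rw [← e1, e2]
      congr 2
      omega
    rw [Nat.Partition.ext_iff, h4 p, h4 q, h3]

lemma beta_succ_ge (t : ℕ) (ht : 2 ≤ t) (x : ℤ) : beta t x ≤ beta (t + 1) x := by
  by_cases hx : x < 0
  · rw [beta_neg t x hx, beta_neg (t + 1) x hx]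
  · obtain ⟨n, rfl⟩ := Int.eq_ofNat_of_zero_le (not_lt.1 hx)
    rw [beta_nat, beta_nat]
    have := card_le_of_inj n (fun a => ¬ t ∣ a) (fun a => ¬ (t + 1) ∣ a) (g t)
      (by intro h; have := Nat.le_of_dvd (by omega) h; omega)
      (fun a ha hP ha1 => ⟨g_not_dvd t (by omega) a ha, g_pos t (by omega) a ha,
        g_ne t a 1 (by omega) ha (by intro h; have := Nat.le_of_dvd (by omega) h; omega) ha1,
        g_le t (by omega) a⟩)
      (fun a c ha hc hPa hPc h => g_inj t (by omega) a c ha hc hPa hPc h)
    unfold regular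
    exact_mod_cast this

/-- The difference `β_{t+1} - β_t`. -/
def dd (t : ℕ) (x : ℤ) : ℤ := beta (t + 1) x - beta t x

lemma dd_nonneg (t : ℕ) (ht : 2 ≤ t) (x : ℤ) : 0 ≤ dd t x := by
  unfold dd
  linarith [beta_succ_ge t ht x]

lemma dd_three (t : ℕ) (ht : 4 ≤ t) (x : ℤ) : dd t (x - 3) ≤ dd t x := by
  by_cases hx : x < 0
  · have e1 : dd t (x - 3) = 0 := by
      unfold dd
      rw [beta_neg t _ (by omega), beta_neg (t + 1) _ (by omega)]
      ring
    rw [e1]
    exact dd_nonneg t (by omega) x
  · obtain ⟨n, rfl⟩ := Int.eq_ofNat_of_zero_le (not_lt.1 hx)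
    have h3 : ¬ t ∣ 3 := by intro h; have := Nat.le_of_dvd (by omega) h; omega
    have h3' : ¬ (t + 1) ∣ 3 := by intro h; have := Nat.le_of_dvd (by omega) h; omega
    have s1 := card_not_mem t n 3 (by omega) h3
    have s2 := card_not_mem (t + 1) n 3 (by omega) h3'
    have s3 := card_le_of_inj n (fun a => ¬ t ∣ a ∧ a ≠ 3) (fun a => ¬ (t + 1) ∣ a ∧ a ≠ 3) (g t)
      (by refine ⟨?_, by omega⟩; intro h; have := Nat.le_of_dvd (by omega) h; omega)
      (fun a ha hP ha1 => ⟨⟨g_not_dvd t (by omega) a ha,
        g_ne t a 3 (by omega) ha h3 hP.2⟩, g_pos t (by omega) a ha,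
        g_ne t a 1 (by omega) ha (by intro h; have := Nat.le_of_dvd (by omega) h; omega) ha1,
        g_le t (by omega) a⟩)
      (fun a c ha hc hPa hPc h => g_inj t (by omega) a c ha hc hPa.1 hPc.1 h)
    have conv : ∀ s : ℕ, ((regular s n).filter (fun p => 3 ∉ p.parts)) =
        ((univ : Finset (Nat.Partition n)).filter (fun p => ∀ a ∈ p.parts, ¬ s ∣ a ∧ a ≠ 3)) := by
      intro s
      unfold regular
      rw [filter_filter]
      apply filter_congr
      intro p _
      constructor
      · rintro ⟨q1, q2⟩ a ha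
        exact ⟨q1 a ha, fun h => q2 (h ▸ ha)⟩
      · intro q
        exact ⟨fun a ha => (q a ha).1, fun h => (q 3 h).2 rfl⟩
    rw [← conv t, ← conv (t + 1)] at s3
    have s4 : (((regular t n).filter (fun p => 3 ∉ p.parts)).card : ℤ) ≤
        (((regular (t + 1) n).filter (fun p => 3 ∉ p.parts)).card : ℤ) := by exact_mod_cast s3
    rw [s1, s2] at s4
    unfold dd
    push_cast at s4
    linarith

end Pool.Agent.U295.HK
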