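import Pool.Agent.U295.HK.C

/-!
# The comparison of the hooks of length two in `t`- and `(t+1)`-regular partitions
-/

set_option autoImplicit false

open Finset

namespace Pool.Agent.U295.HK

lemma h_def (t m : ℕ) : h t m =
    (if 2 ≤ m ∧ ¬ t ∣ m then 1 else 0) + (if 1 ≤ m ∧ m % 2 = 0 ∧ ¬ t ∣ m / 2 then 1 else 0) -
    (if 3 ≤ m ∧ m % 2 = 1 ∧ ¬ t ∣ (m + 1) / 2 ∧ ¬ t ∣ (m - 1) / 2 then 1 else 0) := by
  unfold h
  congr 1

lemma h_ge (s : ℕ) (hs : 4 ≤ s) (m : ℕ) :
    (if (m + 3) % 2 = 1 ∧ s ∣ m + 3 then (1 : ℤ) else 0) -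
      (if m % 2 = 1 ∧ s ∣ m then 1 else 0) ≤ h s m := by
  have hsub : s ∣ m + 3 → s ∣ m → False := by
    intro q1 q2
    have := (Nat.dvd_add_right q2).1 q1
    have := Nat.le_of_dvd (by omega) this
    omega
  have hn3 : ¬ s ∣ 3 := by
    intro q
    have := Nat.le_of_dvd (by omega) q
    omega
  rw [h_def]
  rcases Nat.even_or_odd' m with ⟨k, rfl | rfl⟩
  · rw [if_neg (show ¬ ((2 * k) % 2 = 1 ∧ s ∣ 2 * k) by omega),
      if_neg (show ¬ (3 ≤ 2 * k ∧ 2 * k % 2 = 1 ∧ ¬ s ∣ (2 * k + 1) / 2 ∧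
        ¬ s ∣ (2 * k - 1) / 2) by omega)]
    by_cases q : s ∣ 2 * k + 3
    · have hk : 1 ≤ k := by
        by_contra hk
        have : k = 0 := by omega
        subst this
        exact hn3 q
      have q' : ¬ s ∣ 2 * k := fun q' => hsub q q'
      rw [if_pos (show 2 ≤ 2 * k ∧ ¬ s ∣ 2 * k from ⟨by omega, q'⟩)]
      split_ifs <;> norm_num
    · rw [if_neg (show ¬ ((2 * k + 3) % 2 = 1 ∧ s ∣ 2 * k + 3) from fun hh => q hh.2)]
      split_ifs <;> norm_num
  · rw [if_neg (show ¬ ((2 * k + 1 + 3) % 2 = 1 ∧ s ∣ 2 * k + 1 + 3) by omega)]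
    by_cases q : s ∣ 2 * k + 1
    · rw [if_pos (show ((2 * k + 1) % 2 = 1 ∧ s ∣ 2 * k + 1) from ⟨by omega, q⟩)]
      split_ifs <;> norm_num
    · rw [if_neg (show ¬ ((2 * k + 1) % 2 = 1 ∧ s ∣ 2 * k + 1) from fun hh => q hh.2)]
      by_cases hk : 1 ≤ k
      · rw [if_pos (show 2 ≤ 2 * k + 1 ∧ ¬ s ∣ 2 * k + 1 from ⟨by omega, q⟩)]
        split_ifs <;> norm_num
      · rw [if_neg (show ¬ (3 ≤ 2 * k + 1 ∧ (2 * k + 1) % 2 = 1 ∧ ¬ s ∣ (2 * k + 1 + 1) / 2 ∧
          ¬ s ∣ (2 * k + 1 - 1) / 2) by omega)]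
        split_ifs <;> norm_num

/-- Part A. -/
lemma partA (t : ℕ) (ht : 3 ≤ t) (n : ℕ) :
    0 ≤ ∑ m ∈ range (n + 1), h (t + 1) m * dd t (n - m) := by
  set w : ℕ → ℤ := fun m => if m % 2 = 1 ∧ (t + 1) ∣ m then (1 : ℤ) else 0 with hw
  have hw0 : ∀ m, 0 ≤ w m := by
    intro m
    simp only [hw]
    split_ifs <;> norm_num
  have hf0 : ∀ m : ℕ, 0 ≤ dd t (n - m) := fun m => dd_nonneg t (by omega) _
  have e1 : ∑ m ∈ range (n + 1), (w (m + 3) - w m) * dd t (n - m) ≤
      ∑ m ∈ range (n + 1), h (t + 1) m * dd t (n - m) := by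
    apply sum_le_sum
    intro m _
    exact mul_le_mul_of_nonneg_right (h_ge (t + 1) (by omega) m) (hf0 m)
  refine le_trans ?_ e1
  have e2 : ∑ m ∈ range (n + 1), w m * dd t (n - m) ≤
      ∑ m ∈ range (n + 1), w (m + 3) * dd t (n - m) := by
    rcases Nat.eq_or_lt_of_le ht with h3 | h3
    · have hz : ∀ m, w m = 0 := by
        intro m
        simp only [hw]
        rw [if_neg]
        rintro ⟨q1, q2⟩
        rw [← h3] at q2
        omega
      simp [hz]
    · have k0 : w 0 = 0 := by simp [hw]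
      have k1 : w 1 = 0 := by
        simp only [hw]
        rw [if_neg]
        rintro ⟨_, q⟩
        have := Nat.le_of_dvd (by omega) q
        omega
      have k2 : w 2 = 0 := by simp [hw]
      calc ∑ m ∈ range (n + 1), w m * dd t (n - m)
          ≤ ∑ m ∈ range (n + 1 + 3), w m * dd t (n - m) := by
            apply sum_le_sum_of_subset_of_nonneg
            · intro x hx
              rw [mem_range] at hx ⊢
              omega
            · intro m _ _
              exact mul_nonneg (hw0 m) (hf0 m)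
        _ = ∑ m ∈ range (n + 1), w (m + 3) * dd t (n - (m + 3 : ℕ)) := by
            rw [sum_range_succ', sum_range_succ', sum_range_succ']
            simp only [zero_add, k0, k1, k2, zero_mul, add_zero]
        _ ≤ ∑ m ∈ range (n + 1), w (m + 3) * dd t (n - m) := by
            apply sum_le_sum
            intro m _
            apply mul_le_mul_of_nonneg_left _ (hw0 _)
            have := dd_three t (by omega) (n - m)
            have e : (n : ℤ) - (m + 3 : ℕ) = n - m - 3 := by push_cast; ring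
            rw [e]
            exact this
  have e3 : ∑ m ∈ range (n + 1), (w (m + 3) - w m) * dd t (n - m) =
      ∑ m ∈ range (n + 1), w (m + 3) * dd t (n - m) -
        ∑ m ∈ range (n + 1), w m * dd t (n - m) := by
    rw [← sum_sub_distrib]
    apply sum_congr rfl
    intro m _
    ring
  rw [e3]
  linarith

/-- The part of `h` that depends on `t`. -/
def R (t m : ℕ) : ℤ :=
  (if 1 ≤ m ∧ t ∣ m then 1 else 0) + (if 1 ≤ m ∧ 2 * t ∣ m then 1 else 0) -
    (if 2 * t ∣ m + 1 then 1 else 0) - (if 2 ≤ m ∧ 2 * t ∣ m - 1 then 1 else 0)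

lemma h_eq (t : ℕ) (ht : 2 ≤ t) (m : ℕ) :
    h t m = (if 1 ≤ m ∧ m % 2 = 0 then 2 else 0) - R t m := by
  rw [h_def]
  unfold R
  have d2 : ∀ k, 2 * t ∣ 2 * k ↔ t ∣ k := fun k => by
    constructor
    · intro q
      exact Nat.dvd_of_mul_dvd_mul_left (by omega) q
    · intro q
      exact Nat.mul_dvd_mul_left 2 q
  have dodd : ∀ k, ¬ 2 * t ∣ 2 * k + 1 := by
    intro k q
    have : 2 ∣ 2 * k + 1 := Dvd.dvd.trans (Dvd.intro _ rfl) q
    omega
  rcases Nat.even_or_odd' m with ⟨k, rfl | rfl⟩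
  · rcases Nat.eq_zero_or_pos k with rfl | hk
    · have : ¬ 2 * t ∣ 1 := by
        intro q
        have := Nat.le_of_dvd (by omega) q
        omega
      simp [this]
    · have e1 : 2 * k - 1 = 2 * (k - 1) + 1 := by omega
      have e2 : 2 * k / 2 = k := by omega
      rw [if_neg (show ¬ (3 ≤ 2 * k ∧ 2 * k % 2 = 1 ∧ ¬ t ∣ (2 * k + 1) / 2 ∧
        ¬ t ∣ (2 * k - 1) / 2) by omega), if_neg (dodd k),
        if_neg (show ¬ (2 ≤ 2 * k ∧ 2 * t ∣ 2 * k - 1) by rw [e1]; exact fun q => dodd _ q.2),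
        if_pos (show 1 ≤ 2 * k ∧ 2 * k % 2 = 0 by omega), e2]
      simp only [d2]
      have q1 : 1 ≤ 2 * k := by omega
      have q2 : 2 ≤ 2 * k := by omega
      have q3 : 2 * k % 2 = 0 := by omega
      simp only [q1, q2, q3, true_and]
      by_cases c1 : t ∣ 2 * k <;> by_cases c2 : t ∣ k <;> simp [c1, c2]
  · have e1 : (2 * k + 1 + 1) / 2 = k + 1 := by omega
    have e2 : (2 * k + 1 - 1) / 2 = k := by omega
    have e3 : 2 * k + 1 + 1 = 2 * (k + 1) := by ring
    have e4 : 2 * k + 1 - 1 = 2 * k := by omega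
    rw [e1, e2, e3, e4]
    simp only [d2]
    rw [if_neg (show ¬ (1 ≤ 2 * k + 1 ∧ (2 * k + 1) % 2 = 0 ∧ ¬ t ∣ (2 * k + 1) / 2) by omega),
      if_neg (show ¬ (1 ≤ 2 * k + 1 ∧ (2 * k + 1) % 2 = 0) by omega),
      if_neg (show ¬ (1 ≤ 2 * k + 1 ∧ 2 * t ∣ 2 * k + 1) from fun q => dodd k q.2)]
    rcases Nat.eq_zero_or_pos k with rfl | hk
    · have c : ¬ t ∣ 1 := by
        intro q
        have := Nat.le_of_dvd (by omega) q
        omega
      simp [c]
    · have q1 : 1 ≤ 2 * k + 1 := by omega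
      have q2 : 2 ≤ 2 * k + 1 := by omega
      have q3 : (2 * k + 1) % 2 = 1 := by omega
      have q4 : 3 ≤ 2 * k + 1 := by omega
      simp only [q1, q2, q3, q4, true_and]
      have hno : t ∣ k + 1 → t ∣ k → False := by
        intro c1 c2
        have := (Nat.dvd_add_right c2).1 c1
        have := Nat.le_of_dvd (by omega) this
        omega
      by_cases c1 : t ∣ k + 1
      · have c2 : ¬ t ∣ k := fun c2 => hno c1 c2
        by_cases c3 : t ∣ 2 * k + 1 <;> simp [c1, c2, c3]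
      · by_cases c2 : t ∣ k <;> by_cases c3 : t ∣ 2 * k + 1 <;> simp [c1, c2, c3]

lemma sum_R (t : ℕ) (ht : 2 ≤ t) (n : ℕ) (f : ℤ → ℤ) (hf : ∀ x < 0, f x = 0) :
    ∑ m ∈ range (n + 1), R t m * f (n - m) =
      ∑ i ∈ range (n + 1), (f (n - ((2 * i + 1) * t : ℕ)) + f (n - ((2 * i + 2) * t : ℕ)) +
        f (n - (2 * t * (i + 1) : ℕ)) - f (n - (2 * t * (i + 1) - 1 : ℕ)) -
        f (n - (2 * t * (i + 1) + 1 : ℕ))) := by
  have r1 := reindex n f hf (fun a => a * t) (fun a => 1 ≤ a) (fun m => 1 ≤ m ∧ t ∣ m)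
    (2 * (n + 1) + 1) (fun a ha ha' => by nlinarith)
    (fun a ha => ⟨by nlinarith, Dvd.intro_left _ rfl⟩)
    (fun a c _ _ hac => Nat.eq_of_mul_eq_mul_right (by omega) hac)
    (fun m hm => by
      obtain ⟨q1, c, rfl⟩ := hm
      exact ⟨c, by
        rcases Nat.eq_zero_or_pos c with rfl | hc
        · simp at q1
        · exact hc, by ring⟩)
  have r2 := reindex n f hf (fun a => 2 * t * a) (fun a => 1 ≤ a) (fun m => 1 ≤ m ∧ 2 * t ∣ m)
    (n + 1 + 1) (fun a ha ha' => by nlinarith)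
    (fun a ha => ⟨by nlinarith, Dvd.intro _ rfl⟩)
    (fun a c _ _ hac => Nat.eq_of_mul_eq_mul_left (by omega) hac)
    (fun m hm => by
      obtain ⟨q1, c, rfl⟩ := hm
      exact ⟨c, by
        rcases Nat.eq_zero_or_pos c with rfl | hc
        · simp at q1
        · exact hc, rfl⟩)
  have r3 := reindex n f hf (fun a => 2 * t * a - 1) (fun a => 1 ≤ a) (fun m => 2 * t ∣ m + 1)
    (n + 1 + 1) (fun a ha ha' => by
      have : 4 * a ≤ 2 * t * a := by nlinarith
      omega)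
    (fun a ha => by
      have : 4 * a ≤ 2 * t * a := by nlinarith
      rw [Nat.sub_add_cancel (by omega)]
      exact Dvd.intro _ rfl)
    (fun a c ha hc hac => by
      have q1 : 4 * a ≤ 2 * t * a := by nlinarith
      have q2 : 4 * c ≤ 2 * t * c := by nlinarith
      have : 2 * t * a = 2 * t * c := by omega
      exact Nat.eq_of_mul_eq_mul_left (by omega) this)
    (fun m hm => by
      obtain ⟨c, hc⟩ := hm
      exact ⟨c, by
        rcases Nat.eq_zero_or_pos c with rfl | hc'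
        · simp at hc
        · exact hc', by omega⟩)
  have r4 := reindex n f hf (fun a => 2 * t * a + 1) (fun a => 1 ≤ a)
    (fun m => 2 ≤ m ∧ 2 * t ∣ m - 1)
    (n + 1 + 1) (fun a ha ha' => by
      have : 4 * a ≤ 2 * t * a := by nlinarith
      omega)
    (fun a ha => by
      have : 4 * a ≤ 2 * t * a := by nlinarith
      exact ⟨by omega, by rw [Nat.add_sub_cancel]; exact Dvd.intro _ rfl⟩)
    (fun a c ha hc hac => by
      have : 2 * t * a = 2 * t * c := by omega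
      exact Nat.eq_of_mul_eq_mul_left (by omega) this)
    (fun m hm => by
      obtain ⟨q1, c, hc⟩ := hm
      exact ⟨c, by
        rcases Nat.eq_zero_or_pos c with rfl | hc'
        · simp at hc
          omega
        · exact hc', by omega⟩)
  have l0 : ∑ m ∈ range (n + 1), R t m * f (n - m) =
      ∑ m ∈ range (n + 1), (if 1 ≤ m ∧ t ∣ m then f (n - m) else 0) +
      ∑ m ∈ range (n + 1), (if 1 ≤ m ∧ 2 * t ∣ m then f (n - m) else 0) -
      ∑ m ∈ range (n + 1), (if 2 * t ∣ m + 1 then f (n - m) else 0) -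
      ∑ m ∈ range (n + 1), (if 2 ≤ m ∧ 2 * t ∣ m - 1 then f (n - m) else 0) := by
    rw [← sum_add_distrib, ← sum_sub_distrib, ← sum_sub_distrib]
    apply sum_congr rfl
    intro m _
    unfold R
    split_ifs <;> ring
  have hdouble : ∀ (G : ℕ → ℤ) (K : ℕ), ∑ a ∈ range (2 * K + 1), (if 1 ≤ a then G a else 0) =
      ∑ i ∈ range K, (G (2 * i + 1) + G (2 * i + 2)) := by
    intro G K
    induction K with
    | zero => simp
    | succ K ih =>
      rw [show 2 * (K + 1) + 1 = 2 * K + 1 + 1 + 1 by ring, sum_range_succ, sum_range_succ, ih,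
        sum_range_succ, if_pos (by omega), if_pos (by omega)]
      ring_nf
  have hshift : ∀ (G : ℕ → ℤ) (K : ℕ), ∑ a ∈ range (K + 1), (if 1 ≤ a then G a else 0) =
      ∑ i ∈ range K, G (i + 1) := by
    intro G K
    rw [sum_range_succ']
    simp
  rw [l0, ← r1, ← r2, ← r3, ← r4]
  rw [hdouble (fun a => f (n - (a * t : ℕ))) (n + 1), hshift (fun a => f (n - (2 * t * a : ℕ))) (n + 1),
    hshift (fun a => f (n - (2 * t * a - 1 : ℕ))) (n + 1),
    hshift (fun a => f (n - (2 * t * a + 1 : ℕ))) (n + 1)]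
  rw [← sum_add_distrib, ← sum_sub_distrib, ← sum_sub_distrib]

/-- Part B. -/
lemma partB (t : ℕ) (ht : 3 ≤ t) (n : ℕ) :
    0 ≤ ∑ m ∈ range (n + 1), (h (t + 1) m - h t m) * beta t (n - m) := by
  have e1 : ∑ m ∈ range (n + 1), (h (t + 1) m - h t m) * beta t (n - m) =
      ∑ m ∈ range (n + 1), R t m * beta t (n - m) -
      ∑ m ∈ range (n + 1), R (t + 1) m * beta t (n - m) := by
    rw [← sum_sub_distrib]
    apply sum_congr rfl
    intro m _
    rw [h_eq t (by omega) m, h_eq (t + 1) (by omega) m]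
    ring
  rw [e1, sum_R t (by omega) n _ (beta_neg t), sum_R (t + 1) (by omega) n _ (beta_neg t),
    ← sum_sub_distrib]
  apply sum_nonneg
  intro i _
  set u : ℤ := n - 2 * t * (i + 1) with hu
  have pos1 : 1 ≤ 2 * t * (i + 1) := by nlinarith
  have pos2 : 1 ≤ 2 * (t + 1) * (i + 1) := by nlinarith
  have a1 : (n : ℤ) - ((2 * i + 1) * t : ℕ) = u + t := by push_cast; rw [hu]; ring
  have a2 : (n : ℤ) - ((2 * i + 2) * t : ℕ) = u := by push_cast; rw [hu]; ring
  have a3 : (n : ℤ) - (2 * t * (i + 1) : ℕ) = u := by push_cast; rw [hu]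
  have a4 : (n : ℤ) - (2 * t * (i + 1) - 1 : ℕ) = u + 1 := by
    rw [Nat.cast_sub pos1]; push_cast; rw [hu]; ring
  have a5 : (n : ℤ) - (2 * t * (i + 1) + 1 : ℕ) = u - 1 := by push_cast; rw [hu]; ring
  have c1 : (n : ℤ) - ((2 * i + 1) * (t + 1) : ℕ) = u + t - 1 - (2 * i : ℕ) := by
    push_cast; rw [hu]; ring
  have c2 : (n : ℤ) - ((2 * i + 2) * (t + 1) : ℕ) = u - 2 * (i + 1 : ℕ) := by
    push_cast; rw [hu]; ring
  have c3 : (n : ℤ) - (2 * (t + 1) * (i + 1) : ℕ) = u - 2 * (i + 1 : ℕ) := by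
    push_cast; rw [hu]; ring
  have c4 : (n : ℤ) - (2 * (t + 1) * (i + 1) - 1 : ℕ) = u - 2 * (i + 1 : ℕ) + 1 := by
    rw [Nat.cast_sub pos2]; push_cast; rw [hu]; ring
  have c5 : (n : ℤ) - (2 * (t + 1) * (i + 1) + 1 : ℕ) = u - 2 * (i + 1 : ℕ) - 1 := by
    push_cast; rw [hu]; ring
  rw [a1, a2, a3, a4, a5, c1, c2, c3, c4, c5]
  set v : ℤ := u - 2 * (i + 1 : ℕ) with hv
  have f1 := beta_mono t (by omega) (u + t - 1) (2 * i)
  have f2 := cc_mono t (by omega) (t - 1) (by omega) (by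
    intro q
    have := Nat.le_of_dvd (by omega) q
    omega) (u + t)
  have f2' : u + (t : ℤ) - (t - 1 : ℕ) = u + 1 := by
    rw [Nat.cast_sub (by omega)]
    push_cast
    ring
  rw [f2'] at f2
  have f3 := cc_even t ht (i + 1) u
  rw [← hv] at f3
  have f4 := cc_nonneg t (by omega) (v + 1)
  unfold cc at f2 f3 f4
  have g1 : u + 1 - 1 = u := by ring
  have g2 : v + 1 - 1 = v := by ring
  rw [g1] at f2
  rw [g2] at f4
  linarith

end Pool.Agent.U295.HK
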