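import Pool.Agent.U295.HK.D

/-!
# The monotonicity of the number of hooks of length two
-/

set_option autoImplicit false

open Finset

namespace Pool.Agent.U295.HK

/-- The number of hooks of length two in `t`-regular partitions is monotone in `t ≥ 3`. -/
theorem b_mono (t : ℕ) (ht : 3 ≤ t) (n : ℕ) : b t 2 n ≤ b (t + 1) 2 n := by
  have hA := partA t ht n
  have hB := partB t ht n
  have e : (b (t + 1) 2 n : ℤ) - b t 2 n =
      ∑ m ∈ range (n + 1), h (t + 1) m * dd t (n - m) +
      ∑ m ∈ range (n + 1), (h (t + 1) m - h t m) * beta t (n - m) := by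
    rw [b_two, b_two, ← sum_sub_distrib, ← sum_add_distrib]
    apply sum_congr rfl
    intro m _
    unfold dd
    ring
  have : (b t 2 n : ℤ) ≤ b (t + 1) 2 n := by linarith
  exact_mod_cast this

end Pool.Agent.U295.HK
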